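import Pool.Agent.H93.SPJ.Defs

set_option autoImplicit false

open scoped Pointwise

namespace Pool.SPJ

theorem t_cnt : CntStmt := by
  intro F B G k _ hB hk
  classical
  have h1 : ∑ a ∈ F, (B a).card = ∑ y ∈ G, (F.filter (fun a => y ∈ B a)).card := by
    have h2 := Finset.sum_card_bipartiteAbove_eq_sum_card_bipartiteBelow
      (s := F) (t := G) (fun a y => y ∈ B a)
    rw [Finset.sum_congr rfl (g := fun a => (G.bipartiteAbove (fun a y => y ∈ B a) a).card), h2]
    · rfl
    · intro a ha
      congr 1
      ext y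
      rw [Finset.mem_bipartiteAbove]
      exact ⟨fun h => ⟨hB a ha h, h⟩, fun h => h.2⟩
  have h3 : (∑ a ∈ F, ((B a).card : ℝ)) = ∑ y ∈ G, ((F.filter (fun a => y ∈ B a)).card : ℝ) := by
    exact_mod_cast h1
  rw [h3]
  calc ∑ y ∈ G, ((F.filter (fun a => y ∈ B a)).card : ℝ) ≤ ∑ _y ∈ G, k := Finset.sum_le_sum hk
    _ = k * G.card := by rw [Finset.sum_const, nsmul_eq_mul, mul_comm]

theorem t_int : IntStmt := by
  intro X Y P W
  classical
  let f : ℚ × (ℚ × ℚ) → ℚ × ℚ := fun z => (z.1 + z.2.1, z.1 + z.2.2)
  have h1 := Finset.card_le_mul_card_image (f := f) ((X ∩ Y) ×ˢ (P ×ˢ W))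
    ((P - P) ∩ (W - W)).card (by
      intro b hb
      obtain ⟨z0, hz0, hzb⟩ := Finset.mem_image.1 hb
      apply Finset.card_le_card_of_injOn (fun z => z.1 - z0.1)
      · intro z hz
        simp only [Finset.coe_filter, Set.mem_setOf_eq, Finset.mem_product] at hz
        simp only [Finset.mem_product] at hz0
        obtain ⟨⟨-, hp, hw⟩, hfz⟩ := hz
        obtain ⟨-, hp0, hw0⟩ := hz0
        have e := hfz.trans hzb.symm
        simp only [f, Prod.mk.injEq] at e
        simp only [Finset.coe_inter, Set.mem_inter_iff, Finset.mem_coe]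
        constructor
        · rw [Finset.mem_sub]
          exact ⟨z0.2.1, hp0, z.2.1, hp, by linarith [e.1]⟩
        · rw [Finset.mem_sub]
          exact ⟨z0.2.2, hw0, z.2.2, hw, by linarith [e.2]⟩
      · intro z hz z' hz' hzz
        simp only [Finset.coe_filter, Set.mem_setOf_eq] at hz hz'
        have e := hz.2.trans hz'.2.symm
        simp only [f, Prod.mk.injEq] at e
        have h0 : z.1 = z'.1 := by
          have := hzz
          simp only at this
          linarith
        refine Prod.ext h0 (Prod.ext ?_ ?_)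
        · linarith [e.1]
        · linarith [e.2])
  have h2 : (((X ∩ Y) ×ˢ (P ×ˢ W)).image f).card ≤ (X + P).card * (Y + W).card := by
    rw [← Finset.card_product]
    apply Finset.card_le_card
    intro b hb
    obtain ⟨z, hz, rfl⟩ := Finset.mem_image.1 hb
    simp only [Finset.mem_product, Finset.mem_inter] at hz ⊢
    exact ⟨Finset.add_mem_add hz.1.1 hz.2.1, Finset.add_mem_add hz.1.2 hz.2.2⟩
  rw [Finset.card_product, Finset.card_product] at h1
  exact h1.trans (Nat.mul_le_mul_left _ h2)

theorem t_cel : CelStmt := by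
  intro D P hP
  classical
  let G : Finset (Finset ℚ) := D.powerset.filter fun F =>
    ∀ a ∈ F, ∀ b ∈ F, ∀ p ∈ P, ∀ q ∈ P, a + p = b + q → a = b
  have hG : G.Nonempty := ⟨∅, by simp [G]⟩
  obtain ⟨F, hF, hmax⟩ := Finset.exists_max_image G Finset.card hG
  have hFG := hF
  simp only [G, Finset.mem_filter, Finset.mem_powerset] at hFG
  obtain ⟨hFD, hdis⟩ := hFG
  refine ⟨F, hFD, ?_, ?_⟩
  · intro d hd
    by_contra hno
    push Not at hno
    obtain ⟨p0, hp0⟩ := hP
    have hdF : d ∉ F := by
      intro h
      apply hno d h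
      rw [Finset.mem_sub]
      exact ⟨p0, hp0, p0, hp0, by ring⟩
    have hins : insert d F ∈ G := by
      simp only [G, Finset.mem_filter, Finset.mem_powerset]
      refine ⟨Finset.insert_subset hd hFD, ?_⟩
      intro a ha b hb p hp q hq hab
      rcases Finset.mem_insert.1 ha with rfl | ha' <;> rcases Finset.mem_insert.1 hb with hb' | hb'
      · exact hb'.symm
      · exfalso
        apply hno b hb'
        rw [Finset.mem_sub]
        exact ⟨q, hq, p, hp, by linarith⟩
      · exfalso
        apply hno a ha'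
        rw [Finset.mem_sub]
        exact ⟨p, hp, q, hq, by rw [← hb']; linarith⟩
      · exact hdis a ha' b hb' p hp q hq hab
    have := hmax _ hins
    rw [Finset.card_insert_of_notMem hdF] at this
    omega
  · intro c y E hc
    rw [← Finset.card_product]
    apply Finset.card_le_card_of_injOn (fun z : ℚ × ℚ => y - c * (z.1 + z.2))
    · intro z hz
      simp only [Finset.coe_product, Finset.coe_filter, Set.mem_prod, Set.mem_setOf_eq,
        Finset.mem_coe] at hz
      rw [Finset.mem_coe, Finset.mem_add]
      refine ⟨y - c * z.1, hz.1.2, -c * z.2, Finset.mem_image.2 ⟨z.2, hz.2, rfl⟩, by ring⟩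
    · intro z hz z' hz' hzz
      simp only [Finset.coe_product, Finset.coe_filter, Set.mem_prod, Set.mem_setOf_eq,
        Finset.mem_coe] at hz hz'
      simp only at hzz
      have h1 : z.1 + z.2 = z'.1 + z'.2 := by
        have : c * (z.1 + z.2) = c * (z'.1 + z'.2) := by linarith
        exact mul_left_cancel₀ hc this
      have h2 := hdis z.1 hz.1.1 z'.1 hz'.1.1 z.2 hz.2 z'.2 hz'.2 h1
      refine Prod.ext h2 ?_
      rw [h2] at h1
      linarith

end Pool.SPJ
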