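import Pool.Agent.H93.SPJ.Defs

set_option autoImplicit false

open scoped Pointwise

namespace Pool.SPJ

/-- iterated sumset, as a power in the multiplicative version -/
theorem plu_pr (P : Finset ℚ) (hP : P.Nonempty) (N : ℕ) :
    ((ns N P - ns N P).card : ℚ) ≤ ((P + P).card / P.card : ℚ) ^ (N + N) * P.card := by
  have h := Finset.pluennecke_ruzsa_inequality_nsmul_sub_nsmul_add hP P N N
  have hns : ∀ n : ℕ, n • P = ns n P := by
    intro n
    induction n with
    | zero =>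
      rw [zero_nsmul]
      rfl
    | succ n ih =>
      rw [succ_nsmul, ih]
      rfl
  have h2 : (((ns N P - ns N P).card : ℚ≥0)) ≤
      ((P + P).card / P.card : ℚ≥0) ^ (N + N) * P.card := by
    rw [← hns]
    exact h
  have h3 := NNRat.coe_le_coe.2 h2
  push_cast at h3
  exact h3

theorem ns_add {P : Finset ℚ} {m k : ℕ} {x y : ℚ} (hx : x ∈ ns m P) (hy : y ∈ ns k P) :
    x + y ∈ ns (m + k) P := by
  induction k generalizing y with
  | zero =>
    have : y = 0 := by simpa [ns] using hy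
    rw [this]
    simpa using hx
  | succ k ih =>
    rw [ns, Finset.mem_add] at hy
    obtain ⟨z, hz, p, hp, rfl⟩ := hy
    rw [← add_assoc m k 1, ns, Finset.mem_add]
    exact ⟨x + z, ih hz, p, hp, by ring⟩

theorem ns_smul {P : Finset ℚ} {n : ℕ} {x : ℚ} (hx : x ∈ ns n P) (b : ℕ) :
    (b : ℚ) * x ∈ ns (b * n) P := by
  induction b with
  | zero => simp [ns]
  | succ b ih =>
    have := ns_add ih hx
    have e : b * n + n = (b + 1) * n := by ring
    rw [← e]
    push_cast
    rw [add_mul, one_mul]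
    exact this

theorem Sn_add {P : Finset ℚ} {m k : ℕ} {x y : ℚ} (hx : x ∈ Sn m P) (hy : y ∈ Sn k P) :
    x + y ∈ Sn (m + k) P := by
  rw [Sn, Finset.mem_sub] at hx hy ⊢
  obtain ⟨a, ha, b, hb, rfl⟩ := hx
  obtain ⟨c, hc, d, hd, rfl⟩ := hy
  exact ⟨a + c, ns_add ha hc, b + d, ns_add hb hd, by ring⟩

theorem Sn_smul {P : Finset ℚ} {n : ℕ} {x : ℚ} (hx : x ∈ Sn n P) (b : ℕ) :
    (b : ℚ) * x ∈ Sn (b * n) P := by
  rw [Sn, Finset.mem_sub] at hx ⊢
  obtain ⟨a, ha, c, hc, rfl⟩ := hx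
  exact ⟨_, ns_smul ha b, _, ns_smul hc b, by ring⟩

theorem Sn_neg {P : Finset ℚ} {n : ℕ} {x : ℚ} (hx : x ∈ Sn n P) : -x ∈ Sn n P := by
  rw [Sn, Finset.mem_sub] at hx ⊢
  obtain ⟨a, ha, c, hc, rfl⟩ := hx
  exact ⟨c, hc, a, ha, by ring⟩

theorem Sn_zsmul {P : Finset ℚ} {n : ℕ} {x : ℚ} (hx : x ∈ Sn n P) (a : ℤ) :
    (a : ℚ) * x ∈ Sn (a.natAbs * n) P := by
  have h1 := Sn_smul hx a.natAbs
  rcases Int.natAbs_eq a with h | h
  · rw [h]
    push_cast
    rw [Int.natAbs_abs]
    simpa [Nat.cast_natAbs] using h1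
  · have h2 := Sn_neg h1
    have e : (a : ℚ) * x = -((a.natAbs : ℚ) * x) := by
      have h5 : (a : ℚ) = -(a.natAbs : ℚ) := by
        have := congrArg (fun z : ℤ => (z : ℚ)) h
        simpa using this
      rw [h5, neg_mul]
    rw [e]
    exact h2

theorem t_plu : PluStmt := by
  intro c n
  classical
  refine ⟨(c.den * n + c.num.natAbs * n) + (c.den * n + c.num.natAbs * n), ?_⟩
  intro K P hK hP hKP
  set N := c.den * n + c.num.natAbs * n with hN
  have hPc : (0 : ℝ) < P.card := by exact_mod_cast hP.card_pos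
  have h1 : (Wf c n P).card ≤ (ns N P - ns N P).card := by
    apply Finset.card_le_card_of_injOn (fun x => (c.den : ℚ) * x)
    · intro z hz
      rw [Finset.mem_coe, Wf, Finset.mem_add] at hz
      obtain ⟨x, hx, y, hy, rfl⟩ := hz
      obtain ⟨w, hw, rfl⟩ := Finset.mem_image.1 hy
      have h2 := Sn_add (Sn_smul hx c.den) (Sn_zsmul hw c.num)
      have h3 : (c.den : ℚ) * (x + c * w) = (c.den : ℚ) * x + (c.num : ℚ) * w := by
        have := Rat.mul_den_eq_num c
        linear_combination w * this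
      change (c.den : ℚ) * (x + c * w) ∈ (ns N P - ns N P)
      rw [h3]
      exact h2
    · intro z _ z' _ h
      have hd : (c.den : ℚ) ≠ 0 := by exact_mod_cast c.den_nz
      exact mul_left_cancel₀ hd h
  have h2 := plu_pr P hP N
  have h3 : ((ns N P - ns N P).card : ℝ) ≤ ((P + P).card / P.card : ℝ) ^ (N + N) * P.card := by
    have h5 : ((((ns N P - ns N P).card : ℚ)) : ℝ) ≤
        ((((P + P).card / P.card : ℚ) ^ (N + N) * P.card : ℚ) : ℝ) := Rat.cast_le.2 h2
    push_cast at h5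
    exact h5
  have h4 : ((P + P).card / P.card : ℝ) ≤ K := by
    rw [div_le_iff₀ hPc]; exact hKP
  calc ((Wf c n P).card : ℝ) ≤ ((ns N P - ns N P).card : ℝ) := by exact_mod_cast h1
    _ ≤ ((P + P).card / P.card : ℝ) ^ (N + N) * P.card := h3
    _ ≤ K ^ (N + N) * P.card := by
      apply mul_le_mul_of_nonneg_right _ hPc.le
      apply pow_le_pow_left₀ (by positivity) h4

end Pool.SPJ
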