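import Pool.Agent.H93.SPJ.Defs

set_option autoImplicit false

open scoped Pointwise

namespace Pool.SPJ

/-- sum with an arithmetic progression -/
def apx (τ : ℚ) (w : ℕ) (P : Finset ℚ) : Finset ℚ :=
  (P ×ˢ Finset.range w).image (fun z => z.1 + τ * (z.2 : ℚ))

theorem apx_card_le (τ : ℚ) (w : ℕ) (P : Finset ℚ) : (apx τ w P).card ≤ w * P.card := by
  refine Finset.card_image_le.trans ?_
  rw [Finset.card_product, Finset.card_range, mul_comm]

theorem apx_card {τ : ℚ} {w : ℕ} {P : Finset ℚ} (h : ∀ p ∈ P, ∀ q ∈ P, |p - q| < |τ|) :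
    (apx τ w P).card = w * P.card := by
  rw [apx, Finset.card_image_of_injOn, Finset.card_product, Finset.card_range, mul_comm]
  intro z hz z' hz' hzz
  rw [Finset.mem_coe, Finset.mem_product] at hz hz'
  have e1 : τ * ((z.2 : ℚ) - (z'.2 : ℚ)) = z'.1 - z.1 := by
    have := hzz
    simp only at this
    linarith
  have h1 := h z'.1 hz'.1 z.1 hz.1
  have h2 : (z.2 : ℤ) = z'.2 := by
    by_contra hne
    have h3 : (1 : ℚ) ≤ |(z.2 : ℚ) - (z'.2 : ℚ)| := by
      have h4 : (1 : ℤ) ≤ |(z.2 : ℤ) - (z'.2 : ℤ)| := Int.one_le_abs (sub_ne_zero.2 hne)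
      exact_mod_cast h4
    rw [← e1, abs_mul] at h1
    have h5 : |τ| * 1 ≤ |τ| * |(z.2 : ℚ) - (z'.2 : ℚ)| :=
      mul_le_mul_of_nonneg_left h3 (abs_nonneg τ)
    linarith
  have h3 : z.2 = z'.2 := by exact_mod_cast h2
  refine Prod.ext ?_ h3
  rw [h3, sub_self, mul_zero] at e1
  linarith

theorem apx_zero {w : ℕ} (hw : 1 ≤ w) (P : Finset ℚ) : apx 0 w P = P := by
  ext x
  rw [apx, Finset.mem_image]
  constructor
  · rintro ⟨z, hz, rfl⟩
    rw [Finset.mem_product] at hz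
    simpa using hz.1
  · intro hx
    exact ⟨(x, 0), Finset.mem_product.2 ⟨hx, Finset.mem_range.2 (by omega)⟩, by simp⟩

theorem apx_add (τ : ℚ) (w : ℕ) (P : Finset ℚ) : apx τ w P + apx τ w P ⊆ apx τ (2 * w) (P + P) := by
  intro x hx
  rw [Finset.mem_add] at hx
  obtain ⟨y, hy, z, hz, rfl⟩ := hx
  rw [apx, Finset.mem_image] at hy hz
  obtain ⟨p, hp, rfl⟩ := hy
  obtain ⟨q, hq, rfl⟩ := hz
  rw [Finset.mem_product, Finset.mem_range] at hp hq
  rw [apx, Finset.mem_image]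
  refine ⟨(p.1 + q.1, p.2 + q.2), Finset.mem_product.2 ⟨Finset.add_mem_add hp.1 hq.1,
    Finset.mem_range.2 (by omega)⟩, ?_⟩
  push_cast
  ring

theorem exists_big (S : Finset ℚ) : ∃ M : ℕ, 1 ≤ M ∧ ∀ x ∈ S, x < M := by
  obtain ⟨B, hB⟩ := S.finite_toSet.bddAbove
  obtain ⟨M, hM⟩ := exists_nat_gt B
  refine ⟨M + 1, by omega, fun x hx => ?_⟩
  have := hB (Finset.mem_coe.2 hx)
  push_cast
  linarith

theorem t_prd : PrdStmt := by
  intro A T R P s w hw hR
  classical
  set b : ℤ := (s.den : ℤ) with hb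
  set a : ℤ := s.num with ha
  have hb1 : (1 : ℚ) ≤ (b : ℚ) := by
    have : 1 ≤ s.den := s.den_pos
    rw [hb]
    exact_mod_cast this
  have hs : s * (b : ℚ) = a := by
    rw [hb, ha]
    push_cast
    exact Rat.mul_den_eq_num s
  obtain ⟨M, hM1, hM⟩ := exists_big
    ((((A.image Prod.snd) ×ˢ (A.image Prod.snd)).image (fun z => |(z.1 : ℚ) - (z.2 : ℚ)|)) ∪
      R.biUnion (fun r => (P r ×ˢ P r).image (fun z => |z.1 - z.2| / |r - s|)))
  have hMd : ∀ d ∈ A.image Prod.snd, ∀ d' ∈ A.image Prod.snd, |(d : ℚ) - (d' : ℚ)| < M := by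
    intro d hd d' hd'
    apply hM
    apply Finset.mem_union_left
    exact Finset.mem_image.2 ⟨(d, d'), Finset.mem_product.2 ⟨hd, hd'⟩, rfl⟩
  have hMr : ∀ r ∈ R, r ≠ s → ∀ p ∈ P r, ∀ q ∈ P r, |p - q| < |(M : ℚ) * b * (r - s)| := by
    intro r hr hrs p hp q hq
    have h1 : |p - q| / |r - s| < M := by
      apply hM
      apply Finset.mem_union_right
      rw [Finset.mem_biUnion]
      exact ⟨r, hr, Finset.mem_image.2 ⟨(p, q), Finset.mem_product.2 ⟨hp, hq⟩, rfl⟩⟩
    have h2 : 0 < |r - s| := abs_pos.2 (sub_ne_zero.2 hrs)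
    rw [div_lt_iff₀ h2] at h1
    rw [abs_mul, abs_of_nonneg (by positivity : (0 : ℚ) ≤ (M : ℚ) * b)]
    refine h1.trans_le ?_
    apply mul_le_mul_of_nonneg_right _ h2.le
    have : (0 : ℚ) ≤ M := by positivity
    nlinarith
  let g : (ℤ × ℤ) × ℕ → ℤ × ℤ := fun z =>
    (z.1.1 - a * M * (z.2 : ℤ), z.1.2 + b * M * (z.2 : ℤ))
  have hg : ∀ (t : ℚ) (z : (ℤ × ℤ) × ℕ),
      ptz t (g z) = ptz t z.1 + ((M : ℚ) * b * (t - s)) * (z.2 : ℚ) := by
    intro t z
    simp only [ptz, g]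
    push_cast
    linear_combination ((M : ℚ) * (z.2 : ℚ)) * hs
  have himg : ∀ t : ℚ, ((A ×ˢ Finset.range w).image g).image (ptz t) =
      apx ((M : ℚ) * b * (t - s)) w (A.image (ptz t)) := by
    intro t
    ext x
    simp only [apx, Finset.mem_image, Finset.mem_product]
    constructor
    · rintro ⟨y, ⟨z, hz, rfl⟩, rfl⟩
      exact ⟨(ptz t z.1, z.2), ⟨⟨z.1, hz.1, rfl⟩, hz.2⟩, (hg t z).symm⟩
    · rintro ⟨y, ⟨⟨l, hl, hly⟩, hi⟩, rfl⟩
      exact ⟨g (l, y.2), ⟨(l, y.2), ⟨hl, hi⟩, rfl⟩, by rw [hg, ← hly]⟩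
  refine ⟨(A ×ˢ Finset.range w).image g, fun r => apx ((M : ℚ) * b * (r - s)) w (P r), ?_, ?_, ?_⟩
  · -- directions
    have h1 : (((A.image Prod.snd) ×ˢ Finset.range w).image
        (fun z : ℤ × ℕ => z.1 + b * M * (z.2 : ℤ))).card = w * (A.image Prod.snd).card := by
      rw [Finset.card_image_of_injOn, Finset.card_product, Finset.card_range, mul_comm]
      intro z hz z' hz' hzz
      rw [Finset.mem_coe, Finset.mem_product] at hz hz'
      have e1 : b * M * ((z.2 : ℤ) - z'.2) = z'.1 - z.1 := by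
        have := hzz
        simp only at this
        linarith
      have h1 := hMd z'.1 hz'.1 z.1 hz.1
      have h2 : (z.2 : ℤ) = z'.2 := by
        by_contra hne
        have h3 : (1 : ℤ) ≤ |(z.2 : ℤ) - (z'.2 : ℤ)| := Int.one_le_abs (sub_ne_zero.2 hne)
        have h4 : |z'.1 - z.1| < (M : ℤ) := by exact_mod_cast h1
        rw [← e1, abs_mul, abs_of_nonneg (by positivity : (0 : ℤ) ≤ b * M)] at h4
        have h5 : (1 : ℤ) ≤ b := by exact_mod_cast hb1
        have h6 : (0 : ℤ) ≤ M := by positivity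
        nlinarith [mul_le_mul h5 (le_refl (M : ℤ)) h6 (by linarith : (0 : ℤ) ≤ b)]
      have h3 : z.2 = z'.2 := by exact_mod_cast h2
      refine Prod.ext ?_ h3
      rw [h3, sub_self, mul_zero] at e1
      linarith
    rw [← h1]
    apply Finset.card_le_card
    intro x hx
    obtain ⟨z, hz, rfl⟩ := Finset.mem_image.1 hx
    rw [Finset.mem_product] at hz
    obtain ⟨l, hl, hlz⟩ := Finset.mem_image.1 hz.1
    refine Finset.mem_image.2 ⟨g (l, z.2), Finset.mem_image.2 ⟨(l, z.2),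
      Finset.mem_product.2 ⟨hl, hz.2⟩, rfl⟩, ?_⟩
    simp only [g]
    rw [hlz]
  · intro t _
    rw [himg]
    exact apx_card_le _ _ _
  · intro r hr
    obtain ⟨hne, hsub⟩ := hR r hr
    refine ⟨?_, ?_, apx_card_le _ _ _, ?_, ?_⟩
    · obtain ⟨p, hp⟩ := hne
      exact ⟨p + ((M : ℚ) * b * (r - s)) * ((0 : ℕ) : ℚ), Finset.mem_image.2 ⟨(p, 0),
        Finset.mem_product.2 ⟨hp, Finset.mem_range.2 (by omega)⟩, rfl⟩⟩
    · rw [himg]
      exact Finset.image_subset_image (Finset.product_subset_product_left hsub)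
    · intro hrs
      change (apx ((M : ℚ) * b * (r - s)) w (P r)).card ≤ (P r).card
      rw [hrs, sub_self, mul_zero, apx_zero hw]
    · intro K hK
      by_cases hrs : r = s
      · simp only [hrs, sub_self, mul_zero, apx_zero hw] at hK ⊢
        have h1 : (0 : ℝ) ≤ K * (P s).card := le_trans (by positivity) hK
        linarith
      · have h1 := apx_card (w := w) (hMr r hr hrs)
        have h2 := (Finset.card_le_card (apx_add ((M : ℚ) * b * (r - s)) w (P r))).trans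
          (apx_card_le _ _ _)
        rw [h1]
        have h3 : ((apx ((M : ℚ) * b * (r - s)) w (P r) +
            apx ((M : ℚ) * b * (r - s)) w (P r)).card : ℝ) ≤ 2 * w * (P r + P r).card := by
          exact_mod_cast h2
        refine h3.trans ?_
        push_cast
        have h4 : (0 : ℝ) ≤ w := by positivity
        nlinarith [mul_le_mul_of_nonneg_left hK h4]

end Pool.SPJ
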